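import Pool.Agent.Q53.LFC.Hilb

/-!
# Sextic del Pezzo fibrations, and the very general member of `C_98`
-/

set_option autoImplicit false

namespace Pool.Agent.Q53.LFC

open Pool.Agent.Q53.CF

open Pool.Agent.Q53.LFY Pool.Agent.Q53.LFY.CubLat Pool.Agent.Q53.LFA Pool.Agent.Q53.LFB

variable {H : CubLat}

/-- a class of discriminant 18 and a class `T` which is not orthogonal to `F` and `h` modulo 3 -/
theorem exists_mod_nine (hH : H.IsCubic) {F T : Fin 23 → ℤ} (hF : H.IsHodge F)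
    (hT : H.IsHodge T) (hd : H.disc F = 18)
    (h : ¬ (3 : ℤ) ∣ H.ip F T ∨ ¬ (3 : ℤ) ∣ H.ip T H.h) :
    ∃ v, H.IsHodge v ∧ H.disc v % 9 ≠ 0 ∧ H.disc v % 9 ≠ 3 := by
  have hFh : (3 : ℤ) ∣ H.ip F H.h := by
    have h1 : H.disc F = 3 * H.ip F F - H.ip F H.h ^ 2 := by rw [disc, hH.comm H.h F]
    have h2 : (3 : ℤ) ∣ H.ip F H.h ^ 2 := ⟨H.ip F F - 6, by rw [hd] at h1; linarith⟩
    exact Int.prime_three.dvd_of_dvd_pow h2
  have hdT : H.disc T = 3 * H.ip T T - H.ip T H.h ^ 2 := by rw [disc, hH.comm H.h T]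
  have hmod := disc_mod hH T
  by_cases ht : (3 : ℤ) ∣ H.ip T H.h
  · have hb := h.resolve_right (fun hc => hc ht)
    obtain ⟨t, ht⟩ := ht
    obtain ⟨f, hf⟩ := hFh
    have hD : D H F T = 3 * H.ip F T - 9 * (f * t) := by rw [D, hf, ht]; ring
    have h9 : H.disc T % 9 = 0 ∨ H.disc T % 9 = 3 ∨ H.disc T % 9 = 6 := by
      rw [hdT, ht]
      obtain ⟨s, hs⟩ : ∃ s, s = t ^ 2 := ⟨_, rfl⟩
      have : (3 * t) ^ 2 = 9 * s := by rw [hs]; ring
      rw [this]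
      omega
    have e1 : H.disc ((1 : ℤ) • F + (1 : ℤ) • T) = 18 + H.disc T + 2 * D H F T := by
      rw [disc_comb2 hH, hd]; ring
    have e2 : H.disc ((-1 : ℤ) • F + (1 : ℤ) • T) = 18 + H.disc T - 2 * D H F T := by
      rw [disc_comb2 hH, hd]; ring
    have z1 : H.IsHodge ((1 : ℤ) • F + (1 : ℤ) • T) :=
      H.isHodge_add (H.isHodge_smul _ hF) (H.isHodge_smul _ hT)
    have z2 : H.IsHodge ((-1 : ℤ) • F + (1 : ℤ) • T) :=
      H.isHodge_add (H.isHodge_smul _ hF) (H.isHodge_smul _ hT)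
    rw [hD] at e1 e2
    generalize f * t = g at e1 e2
    generalize H.ip F T = b at hb e1 e2
    by_cases c0 : H.disc T % 9 = 6
    · exact ⟨T, hT, by omega, by omega⟩
    by_cases c1 : H.disc ((1 : ℤ) • F + (1 : ℤ) • T) % 9 = 6
    · exact ⟨_, z1, by omega, by omega⟩
    · exact ⟨_, z2, by omega, by omega⟩
  · refine ⟨T, hT, ?_⟩
    have h3 : ¬ (3 : ℤ) ∣ H.ip T H.h ^ 2 := fun hc => ht (Int.prime_three.dvd_of_dvd_pow hc)
    omega

/-- the discriminant of the class of a sextic del Pezzo surface or of an elliptic ruled surface -/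
theorem disc_fibre (hH : H.IsCubic) {F : Fin 23 → ℤ} (h6 : H.ip F H.h = 6)
    (h18 : H.ip F F = 18) : H.disc F = 18 := by
  rw [disc, hH.comm H.h F, h6, h18]; norm_num

theorem fibre (hH : H.IsCubic) {F T : Fin 23 → ℤ} (hF : H.IsHodge F) (hT : H.IsHodge T)
    (hd : H.disc F = 18) (h : ¬ (3 : ℤ) ∣ H.ip F T ∨ ¬ (3 : ℤ) ∣ H.ip T H.h) :
    IsHilb H ∧ H.HasK3 := by
  refine main hH hF (m := 3) (by norm_num) (by rw [hd]; norm_num)
    ⟨fun h => absurd h (by norm_num), fun _ => exists_mod_nine hH hF hT hd h, ?_⟩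
  intro p hp h2 h3 hpd
  have := (Nat.dvd_prime Nat.prime_three).1 hpd
  have := hp.two_le
  omega

theorem admissible98 : Admissible 98 := by
  refine ⟨by norm_num, by omega, by omega, fun p hp hp2 hpd => ?_⟩
  have h1 : p ∣ 98 := by exact_mod_cast hpd
  have h2 : p ≤ 98 := Nat.le_of_dvd (by norm_num) h1
  have h3 : p ∣ 2 * 7 ^ 2 := by norm_num; exact h1
  rcases (Nat.Prime.dvd_mul hp).1 h3 with h | h
  · exact absurd ((Nat.prime_dvd_prime_iff_eq hp Nat.prime_two).1 h) hp2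
  · have h4 := hp.dvd_of_dvd_pow h
    rw [(Nat.prime_dvd_prime_iff_eq hp (by norm_num)).1 h4]
    norm_num

/-- a member of `C_98` with a group of Hodge classes of rank two -/
theorem ninety_eight (hH : H.IsCubic) {F : Fin 23 → ℤ} (hF : H.IsHodge F)
    (hs : H.Saturated F) (hd : H.disc F = 98)
    (hr : ∀ v, H.IsHodge v → ∃ a b c : ℤ, c ≠ 0 ∧ c • v = a • H.h + b • F) :
    H.HasK3 ∧ ¬ IsHilb H := by
  refine ⟨⟨F, hF, hs, by rw [hd]; exact admissible98⟩, ?_⟩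
  rintro ⟨v, hv, -, a, n, ha, h⟩
  obtain ⟨x, b, c, hc, hx⟩ := hr v hv
  have h1 : c ^ 2 * H.disc v = b ^ 2 * 98 := by
    have e1 := hH.disc_comb c 0 v
    have e2 := hH.disc_comb b x F
    rw [zero_smul, add_zero] at e1
    rw [← e1, hx, add_comm, e2, hd]
  have h2 : c ^ 2 * ((2 * n + 1) ^ 2 + 3) = (14 * (a * b)) ^ 2 := by
    have e3 : (2 * n + 1) ^ 2 + 3 = 2 * (a ^ 2 * H.disc v) := by rw [h]; ring
    rw [e3]
    linear_combination 2 * a ^ 2 * h1
  have h3 : c ∣ 14 * (a * b) := by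
    rw [← Int.pow_dvd_pow_iff two_ne_zero]
    exact ⟨_, h2.symm⟩
  obtain ⟨N, hN⟩ := h3
  have h4 : N ^ 2 = (2 * n + 1) ^ 2 + 3 := by
    have e4 : c ^ 2 * N ^ 2 = c ^ 2 * ((2 * n + 1) ^ 2 + 3) := by rw [h2, hN]; ring
    exact mul_left_cancel₀ (pow_ne_zero 2 hc) e4
  have h5 : (|N| - |2 * n + 1|) * (|N| + |2 * n + 1|) = 3 := by
    have e5 : (|N| - |2 * n + 1|) * (|N| + |2 * n + 1|) = |N| ^ 2 - |2 * n + 1| ^ 2 := by ring
    rw [e5, sq_abs, sq_abs, h4]; ring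
  have h6 : (2 * n + 1) ^ 2 ≤ 1 := by
    have a1 := abs_nonneg N
    have a2 := abs_nonneg (2 * n + 1)
    obtain ⟨p, hp⟩ : ∃ p, p = |N| := ⟨_, rfl⟩
    obtain ⟨q, hq⟩ : ∃ q, q = |2 * n + 1| := ⟨_, rfl⟩
    rw [← hp, ← hq] at h5
    rw [← hp] at a1
    rw [← hq] at a2
    have h7 : 0 < p - q := by
      by_contra hcon
      push Not at hcon
      nlinarith
    have h8 : q ≤ 1 := by nlinarith
    rw [← sq_abs (2 * n + 1), ← hq]
    nlinarith
  have h7 : n = 0 ∨ n = -1 := by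
    have e1 : 2 * n + 1 ≤ 1 := by nlinarith
    have e2 : -1 ≤ 2 * n + 1 := by nlinarith
    omega
  have h8 : a ^ 2 * H.disc v = 2 := by
    rcases h7 with rfl | rfl
    · rw [h]; norm_num
    · rw [h]; norm_num
  have h9 : 0 < H.disc v := by
    by_contra hcon
    push Not at hcon
    have : a ^ 2 * H.disc v ≤ 0 := mul_nonpos_of_nonneg_of_nonpos (by positivity) hcon
    omega
  have h10 := hH.six_lt hv h9
  have h11 : 0 < a ^ 2 := by positivity
  nlinarith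

end Pool.Agent.Q53.LFC
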