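import Pool.Agent.Q53.CF.Fin
import Pool.Agent.Q53.CF.Fin10
import Pool.Agent.Q53.LFB.PlaneK3

/-!
# The divisors `C_{2 m²}`: Hilbert squares of K3 surfaces
-/

set_option autoImplicit false

namespace Pool.Agent.Q53.LFC

open Pool.Agent.Q53.CF

open Pool.Agent.Q53.LFY Pool.Agent.Q53.LFY.CubLat Pool.Agent.Q53.LFA Pool.Agent.Q53.LFB

variable {H : CubLat}

theorem hilb_of_sol (hH : H.IsCubic) {F T : Fin 23 → ℤ} (hF : H.IsHodge F)
    (hT : H.IsHodge T) {m C : ℤ} (hd : H.disc F = 2 * m ^ 2) (hC : H.disc T = 2 * C)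
    (h : Sol m (D H F T) C) : IsHilb H ∧ H.HasK3 := by
  obtain ⟨κ, w, i, u, h1, h2⟩ := h
  refine of_val hH (v := u • F + w • T) (n := m * u + i)
    (H.isHodge_add (H.isHodge_smul _ hF) (H.isHodge_smul _ hT)) ?_
  rw [disc_comb2 hH, hd, hC]
  exact identity h1 h2

/-- `m` and `D(F, T)` are coprime -/
theorem hilb_coprime (hH : H.IsCubic) {F T : Fin 23 → ℤ} (hF : H.IsHodge F)
    (hT : H.IsHodge T) {m : ℤ} (hd : H.disc F = 2 * m ^ 2) (h : IsCoprime m (D H F T)) :
    IsHilb H ∧ H.HasK3 := by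
  obtain ⟨C, hC⟩ := even_disc hH T
  exact hilb_of_sol hH hF hT hd hC (sol_coprime h)

/-- the local conditions at the primes dividing `m` -/
def Local (H : CubLat) (m : ℕ) : Prop :=
  (2 ∣ m → ∃ v, H.IsHodge v ∧ ¬ (4 : ℤ) ∣ H.disc v) ∧
  (3 ∣ m → ∃ v, H.IsHodge v ∧ H.disc v % 9 ≠ 0 ∧ H.disc v % 9 ≠ 3) ∧
  (∀ p : ℕ, p.Prime → p ≠ 2 → p % 3 = 2 → p ∣ m → ∃ v, H.IsHodge v ∧ ¬ (p : ℤ) ∣ H.disc v)

/-- the discriminant of a class which is orthogonal to `h` modulo 3 -/
theorem three_dvd (hH : H.IsCubic) {F : Fin 23 → ℤ} {m : ℤ} (hm : (3 : ℤ) ∣ m)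
    (hd : H.disc F = 2 * m ^ 2) (T : Fin 23 → ℤ) : (3 : ℤ) ∣ D H F T := by
  obtain ⟨k, hk⟩ := hm
  have h1 : H.disc F = 3 * H.ip F F - H.ip F H.h ^ 2 := by rw [disc, hH.comm H.h F]
  have h2 : (3 : ℤ) ∣ H.ip F H.h ^ 2 := by
    refine ⟨H.ip F F - 6 * k ^ 2, ?_⟩
    rw [h1, hk] at hd
    linarith
  obtain ⟨l, hl⟩ := Int.prime_three.dvd_of_dvd_pow h2
  refine ⟨H.ip F T - l * H.ip T H.h, ?_⟩
  rw [D, hl]
  ring

/-- necessity of the condition at 3 -/
theorem mod_nine {d : ℤ} (hd : Admissible d) (h2 : d % 6 = 0 ∨ d % 6 = 2) :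
    d % 9 ≠ 0 ∧ d % 9 ≠ 3 := by
  obtain ⟨h6, h4, h9, hp⟩ := hd
  refine ⟨by omega, fun h3 => ?_⟩
  -- `d = 6 e`, all prime factors of `e` are `1` modulo `3`
  obtain ⟨e, he⟩ : ∃ e : ℕ, d = 6 * (e : ℤ) := ⟨(d / 6).toNat, by omega⟩
  have h1 : ∀ p : ℕ, p.Prime → p ∣ e → p % 3 = 1 := by
    intro p hpp hpe
    have hpd : (p : ℤ) ∣ d := by
      rw [he]
      exact Dvd.dvd.mul_left (by exact_mod_cast hpe) _
    have hp3 : p ≠ 3 := by
      rintro rfl
      obtain ⟨f, hf⟩ := hpe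
      apply h9
      rw [he, hf]
      exact ⟨2 * f, by push_cast; ring⟩
    have hp2 : p ≠ 2 := by
      rintro rfl
      obtain ⟨f, hf⟩ := hpe
      apply h4
      rw [he, hf]
      exact ⟨3 * f, by push_cast; ring⟩
    have h5 := hp p hpp hp2 hpd
    have h7 : p % 3 ≠ 0 := by
      intro h0
      have h8 : 3 ∣ p := Nat.dvd_of_mod_eq_zero h0
      rcases (Nat.dvd_prime hpp).1 h8 with h | h
      · omega
      · exact hp3 h.symm
    omega
  have h5 : ∀ e : ℕ, 0 < e → (∀ p : ℕ, p.Prime → p ∣ e → p % 3 = 1) → e % 3 = 1 := by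
    intro e
    induction e using Nat.strong_induction_on with
    | _ e ih =>
      intro he0 hpr
      by_cases h1 : e = 1
      · rw [h1]
      obtain ⟨p, hpp, hpe⟩ := Nat.exists_prime_and_dvd h1
      obtain ⟨f, hf⟩ := hpe
      have hf0 : 0 < f := by
        rcases Nat.eq_zero_or_pos f with h | h
        · rw [h, mul_zero] at hf; omega
        · exact h
      have hfe : f < e := by
        rw [hf]
        have := hpp.two_le
        nlinarith
      have h2 := ih f hfe hf0 (fun q hq hqf => hpr q hq (by rw [hf]; exact Dvd.dvd.mul_left hqf _))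
      have h3 := hpr p hpp (by rw [hf]; exact dvd_mul_right _ _)
      rw [hf, Nat.mul_mod, h2, h3]
  have h7 := h5 e (by omega) h1
  omega

/-- necessity of the local conditions -/
theorem local_of_hasK3 (hH : H.IsCubic) (h : H.HasK3) (m : ℕ) : Local H m := by
  obtain ⟨v, hv, -, hadm⟩ := h
  refine ⟨fun _ => ⟨v, hv, hadm.2.1⟩, fun _ => ⟨v, hv, mod_nine hadm (disc_mod hH v)⟩,
    fun p hp h2 h3 _ => ⟨v, hv, fun hd => hadm.2.2.2 p hp h2 hd h3⟩⟩

/-- combination of two classes -/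
theorem combine (hH : H.IsCubic) {u v : Fin 23 → ℤ} (hu : H.IsHodge u) (hv : H.IsHodge v)
    {a b : ℤ} (hab : IsCoprime a b) : ∃ w, H.IsHodge w ∧ a ∣ H.disc w - H.disc u ∧
      b ∣ H.disc w - H.disc v := by
  obtain ⟨x, y, hxy⟩ := hab
  refine ⟨(y * b) • u + (x * a) • v, H.isHodge_add (H.isHodge_smul _ hu) (H.isHodge_smul _ hv),
    ?_, ?_⟩
  · rw [disc_comb2 hH]
    have h1 : y * b = 1 - x * a := by linarith
    rw [h1]
    exact ⟨(x ^ 2 * a - 2 * x) * H.disc u + x ^ 2 * a * H.disc v +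
      2 * ((1 - x * a) * x * D H u v), by ring⟩
  · rw [disc_comb2 hH]
    have h1 : x * a = 1 - y * b := by linarith
    rw [h1]
    exact ⟨y ^ 2 * b * H.disc u + (y ^ 2 * b - 2 * y) * H.disc v +
      2 * (y * (1 - y * b) * D H u v), by ring⟩

/-- the admissible `m` -/
theorem main (hH : H.IsCubic) {F : Fin 23 → ℤ} (hF : H.IsHodge F) {m : ℕ}
    (hm : m = 2 ∨ m = 3 ∨ m = 4 ∨ m = 5 ∨ m = 6 ∨ m = 9 ∨ m = 10 ∨ m = 18) (hd : H.disc F = 2 * (m : ℤ) ^ 2)
    (hL : Local H m) : IsHilb H ∧ H.HasK3 := by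
  -- one class with all local conditions
  have key : ∃ T, H.IsHodge T ∧ (2 ∣ m → ¬ (4 : ℤ) ∣ H.disc T) ∧
      (3 ∣ m → H.disc T % 9 ≠ 0 ∧ H.disc T % 9 ≠ 3) ∧ (5 ∣ m → ¬ (5 : ℤ) ∣ H.disc T) := by
    rcases hm with rfl | rfl | rfl | rfl | rfl | rfl | rfl | rfl
    · obtain ⟨v, hv, h⟩ := hL.1 (by norm_num)
      exact ⟨v, hv, fun _ => h, fun h => absurd h (by norm_num), fun h => absurd h (by norm_num)⟩
    · obtain ⟨v, hv, h⟩ := hL.2.1 (by norm_num)
      exact ⟨v, hv, fun h => absurd h (by norm_num), fun _ => h, fun h => absurd h (by norm_num)⟩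
    · obtain ⟨v, hv, h⟩ := hL.1 (by norm_num)
      exact ⟨v, hv, fun _ => h, fun h => absurd h (by norm_num), fun h => absurd h (by norm_num)⟩
    · obtain ⟨v, hv, h⟩ := hL.2.2 5 (by norm_num) (by norm_num) (by norm_num) (by norm_num)
      exact ⟨v, hv, fun h => absurd h (by norm_num), fun h => absurd h (by norm_num), fun _ => h⟩
    · obtain ⟨u, hu, h1⟩ := hL.1 (by norm_num)
      obtain ⟨v, hv, h2⟩ := hL.2.1 (by norm_num)
      obtain ⟨w, hw, h3, h4⟩ := combine hH hu hv (a := 4) (b := 9) ⟨-2, 1, by norm_num⟩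
      exact ⟨w, hw, fun _ => by omega, fun _ => by omega, fun h => absurd h (by norm_num)⟩
    · obtain ⟨v, hv, h⟩ := hL.2.1 (by norm_num)
      exact ⟨v, hv, fun h => absurd h (by norm_num), fun _ => h, fun h => absurd h (by norm_num)⟩
    · obtain ⟨u, hu, h1⟩ := hL.1 (by norm_num)
      obtain ⟨v, hv, h2⟩ := hL.2.2 5 (by norm_num) (by norm_num) (by norm_num) (by norm_num)
      obtain ⟨w, hw, h3, h4⟩ := combine hH hu hv (a := 4) (b := 5) ⟨-1, 1, by norm_num⟩
      refine ⟨w, hw, fun _ => by omega, fun h => absurd h (by norm_num), fun _ => ?_⟩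
      push_cast at h2
      omega
    · obtain ⟨u, hu, h1⟩ := hL.1 (by norm_num)
      obtain ⟨v, hv, h2⟩ := hL.2.1 (by norm_num)
      obtain ⟨w, hw, h3, h4⟩ := combine hH hu hv (a := 4) (b := 9) ⟨-2, 1, by norm_num⟩
      exact ⟨w, hw, fun _ => by omega, fun _ => by omega, fun h => absurd h (by norm_num)⟩
  obtain ⟨T, hT, h2, h3, h5⟩ := key
  obtain ⟨C, hC⟩ := even_disc hH T
  have hmod := disc_mod hH T
  rw [hC] at h2 h3 h5 hmod
  refine hilb_of_sol hH hF hT hd hC ?_
  have hB3 : (3 : ℤ) ∣ (m : ℤ) → (3 : ℤ) ∣ D H F T := fun h => three_dvd hH h hd T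
  generalize D H F T = B at hB3 ⊢
  rcases hm with rfl | rfl | rfl | rfl | rfl | rfl | rfl | rfl
  · refine sol_of_check (m := 2) (N := 4) (L := L2) (by norm_num) (by decide) ?_
    have h := fin2 (B % (2 * 2 * 4)).toNat (List.mem_range.2 (by omega)) (C % 4).toNat
      (List.mem_range.2 (by omega)) (by have := h2 (by norm_num); omega)
    rwa [Int.toNat_of_nonneg (by omega), Int.toNat_of_nonneg (by omega)] at h
  · refine sol_of_check (m := 3) (N := 9) (L := L3) (by norm_num) (by decide) ?_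
    have hB := hB3 (by norm_num)
    have h3' := h3 (by norm_num)
    have h := fin3 (B % (2 * 3 * 9) / 3).toNat (List.mem_range.2 (by omega)) (C % 9).toNat
      (by simp only [List.mem_cons, List.not_mem_nil, or_false]; omega)
    rwa [Nat.cast_mul, Int.toNat_of_nonneg (by omega), Int.toNat_of_nonneg (by omega),
      show ((3 : ℕ) : ℤ) * (B % (2 * 3 * 9) / 3) = B % (2 * 3 * 9) by push_cast; omega] at h
  · refine sol_of_check (m := 4) (N := 24) (L := L4) (by norm_num) (by decide) ?_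
    have h2' := h2 (by norm_num)
    have h := fin4 (B % (2 * 4 * 24)).toNat (List.mem_range.2 (by omega)) (C % 24 / 2).toNat
      (List.mem_range.2 (by omega))
    rwa [Int.toNat_of_nonneg (by omega), Nat.cast_add, Nat.cast_mul, Int.toNat_of_nonneg (by omega),
      show ((2 : ℕ) : ℤ) * (C % 24 / 2) + ((1 : ℕ) : ℤ) = C % 24 by push_cast; omega] at h
  · refine sol_of_check (m := 5) (N := 15) (L := L5) (by norm_num) (by decide) ?_
    have h5' := h5 (by norm_num)
    have h := fin5 (B % (2 * 5 * 15)).toNat (List.mem_range.2 (by omega)) (C % 15).toNat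
      (List.mem_range.2 (by omega)) (by omega)
    rwa [Int.toNat_of_nonneg (by omega), Int.toNat_of_nonneg (by omega)] at h
  · refine sol_of_check (m := 6) (N := 36) (L := L6) (by norm_num) (by decide) ?_
    have hB := hB3 (by norm_num)
    have h3' := h3 (by norm_num)
    have h2' := h2 (by norm_num)
    have h := fin6 (B % (2 * 6 * 36) / 3).toNat (List.mem_range.2 (by omega)) (C % 36).toNat
      (List.mem_range.2 (by omega)) (by omega)
      (by simp only [List.mem_cons, List.not_mem_nil, or_false]; omega)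
    rwa [Nat.cast_mul, Int.toNat_of_nonneg (by omega), Int.toNat_of_nonneg (by omega),
      show ((3 : ℕ) : ℤ) * (B % (2 * 6 * 36) / 3) = B % (2 * 6 * 36) by push_cast; omega] at h
  · refine sol_of_check (m := 9) (N := 27) (L := L9) (by norm_num) (by decide) ?_
    have hB := hB3 (by norm_num)
    have h3' := h3 (by norm_num)
    have h := fin9 (B % (2 * 9 * 27) / 3).toNat (List.mem_range.2 (by omega)) (C % 27).toNat
      (List.mem_range.2 (by omega))
      (by simp only [List.mem_cons, List.not_mem_nil, or_false]; omega)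
    rwa [Nat.cast_mul, Int.toNat_of_nonneg (by omega), Int.toNat_of_nonneg (by omega),
      show ((3 : ℕ) : ℤ) * (B % (2 * 9 * 27) / 3) = B % (2 * 9 * 27) by push_cast; omega] at h
  · refine sol_of_check (m := 10) (N := 60) (L := L10) (by norm_num) (by decide) ?_
    have h2' := h2 (by norm_num)
    have h5' := h5 (by norm_num)
    have h := fin10' (B % (2 * 10 * 60)).toNat (List.mem_range.2 (by omega))
    rw [Int.toNat_of_nonneg (by omega)] at h
    refine check_of_checks h ?_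
    simp only [C10, List.mem_cons, List.not_mem_nil, or_false]
    omega
  · refine sol_of_check (m := 18) (N := 108) (L := L18) (by norm_num) (by decide) ?_
    have hB := hB3 (by norm_num)
    have h3' := h3 (by norm_num)
    have h2' := h2 (by norm_num)
    have h := fin18' (B % (2 * 18 * 108) / 3).toNat (List.mem_range.2 (by omega))
    rw [Nat.cast_mul, Int.toNat_of_nonneg (by omega),
      show ((3 : ℕ) : ℤ) * (B % (2 * 18 * 108) / 3) = B % (2 * 18 * 108) by push_cast; omega] at h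
    refine check_of_checks h ?_
    simp only [C18, List.mem_cons, List.not_mem_nil, or_false]
    omega

end Pool.Agent.Q53.LFC
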